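import Mathlib
import Pool.Agent.Helper8.KP.Main

/-!
# If every ccc poset has property K then the meagre ideal is closed under unions of size `ℵ₁`
-/

namespace Pool.Agent.Results.MP_f5d7b7_lc.AdditivityOfCategory

open Pool.Agent.Helper8.KP

/-- If every ccc poset has property K, then in every second countable space the union of any family of at most
`ℵ₁` meagre sets is meagre. -/
theorem result
    (H : ∀ (P : Type) [PartialOrder P], CCC P → PropertyK P)
    (X : Type*) [TopologicalSpace X] [SecondCountableTopology X]
    (ι : Type*) (hι : Cardinal.mk ι ≤ Cardinal.aleph 1)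
    (A : ι → Set X) (hA : ∀ i, IsMeagre (A i)) : IsMeagre (⋃ i, A i) :=
  isMeagre_iUnion H hι A hA

end Pool.Agent.Results.MP_f5d7b7_lc.AdditivityOfCategory
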