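import Mathlib
import Pool.Agent.Helper8.KP.LocMain

/-!
# If every ccc poset has property K then `ℵ₁` functions below an iterated exponential are localised
-/

namespace Pool.Agent.Results.MP_f5d7b7_lc.ElementaryLocalization

open Pool.Agent.Helper8.KP

/-- If every ccc poset has property K, then any family of at most `ℵ₁` functions from `ℕ` to `ℕ`, all bounded by
the `c`-fold iterated exponential, is localised by one slalom whose width is bounded by the `d`-fold iterated
logarithm: there are finite sets `S n` with at most `log^(d) n` elements such that every function of the family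
satisfies `f i n ∈ S n` for all but finitely many `n`. -/
theorem result
    (H : ∀ (P : Type) [PartialOrder P], CCC P → PropertyK P)
    (c d : ℕ) (ι : Type*) (hι : Cardinal.mk ι ≤ Cardinal.aleph 1)
    (f : ι → ℕ → ℕ) (hf : ∀ i n, f i n ≤ (fun x : ℕ => 2 ^ x)^[c] n) :
    ∃ S : ℕ → Finset ℕ, (∀ n, (S n).card ≤ (Nat.log 2)^[d] n) ∧
      ∀ i, ∀ᶠ n in Filter.atTop, f i n ∈ S n := by
  obtain ⟨S, hS, hSf⟩ := loc_elementary H hι c d f hf
  exact ⟨S, hS, fun i => Filter.eventually_atTop.2 (hSf i)⟩

end Pool.Agent.Results.MP_f5d7b7_lc.ElementaryLocalization
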