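import Mathlib
import Pool.Agent.Helper87.RG.Appl
import Pool.Agent.Helper87.RG.Bool

set_option autoImplicit false

/-!
# If every ccc poset has property K then `σ`-linkedness in size `ℵ₁` is decided by countable sets
-/

namespace Pool.Agent.Results.MP_f5d7b7_lc.LocalToGlobal

open Pool.Agent.Helper8.KP (CCC PropertyK)
open Pool.Agent.Helper87.RG

universe u

/-- Assume that every ccc poset has property K.

(1) A set `E` of at most `ℵ₁` elements of a ccc poset is `σ`-linked if and only if it is `σ`-linked over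
every countable subset `A` of `E`.

(2) If the sets of at most `ℵ₁` nonzero elements of the countably generated complete subalgebras of a ccc
complete Boolean algebra are `σ`-linked, then all its sets of at most `ℵ₁` nonzero elements are.

(3) If a graph on at most `ℵ₁` vertices is the union of a graph with countable traces and a rectangular
graph, and its finite independent sets form a ccc poset, then they form a `σ`-centered poset.

(4) The same for rectangular graphs, without the chain condition as a hypothesis.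

(5) Every order of size at most `ℵ₁` whose initial segments are chains and whose chains are countable
(for example every Aronszajn tree) is a countable union of antichains.

(6) Hajnal-Mate graphs have countable chromatic number.

(7) For every coloured ladder system, countably many functions uniformise all finite sets of ladders
whose colourings agree pairwise. -/
theorem result (H : ∀ (P : Type) [PartialOrder P], CCC P → PropertyK P) :
    (∀ (P : Type) [PartialOrder P], CCC P → ∀ E : Set P, Cardinal.mk E ≤ Cardinal.aleph 1 →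
      (SigmaLinked E ↔ ∀ A : Set P, A ⊆ E → A.Countable → SigmaLinkedOver E A)) ∧
    (∀ (B : Type) [CompleteBooleanAlgebra B], CCCB B →
      (∀ S : Set B, CtblGen S → ∀ E : Set B, E ⊆ S → ⊥ ∉ E → Cardinal.mk E ≤ Cardinal.aleph 1 →
        SigmaLinkedB E) →
      ∀ E : Set B, ⊥ ∉ E → Cardinal.mk E ≤ Cardinal.aleph 1 → SigmaLinkedB E) ∧
    (∀ (V : Type u) (G₁ G₂ : SimpleGraph V), Cardinal.mk V ≤ Cardinal.aleph 1 →
      CountableTraces G₁ → Rectangular G₂ → CCCGraph (G₁ ⊔ G₂) →
      ∃ W : ℕ → Set V, (∀ n, (G₁ ⊔ G₂).IsIndepSet (W n)) ∧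
        ∀ F : Finset V, (G₁ ⊔ G₂).IsIndepSet (F : Set V) → ∃ n, (F : Set V) ⊆ W n) ∧
    (∀ (V : Type u) (G : SimpleGraph V), Cardinal.mk V ≤ Cardinal.aleph 1 → Rectangular G →
      ∃ W : ℕ → Set V, (∀ n, G.IsIndepSet (W n)) ∧
        ∀ F : Finset V, G.IsIndepSet (F : Set V) → ∃ n, (F : Set V) ⊆ W n) ∧
    (∀ (T : Type u) [PartialOrder T], Cardinal.mk T ≤ Cardinal.aleph 1 →
      (∀ t : T, IsChain (· ≤ ·) (Set.Iic t)) → (∀ C : Set T, IsChain (· ≤ ·) C → C.Countable) →
      ∃ W : ℕ → Set T, (∀ n, IsAntichain (· ≤ ·) (W n)) ∧ ⋃ n, W n = Set.univ) ∧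
    (∀ (V : Type u) [LinearOrder V] (G : SimpleGraph V), (∀ a : V, (Set.Iio a).Countable) →
      (∀ u v : V, u < v → {w : V | w < u ∧ G.Adj w v}.Finite) → Nonempty (G.Coloring ℕ)) ∧
    (∀ (Ω : Type) [LinearOrder Ω] [WellFoundedLT Ω] (C : Ω → Set Ω) (f : Ω → Ω → ℕ),
      (∀ a : Ω, (Set.Iio a).Countable) → (∀ d, C d ⊆ Set.Iio d) →
      (∀ d e, e < d → (C d ∩ Set.Iio e).Finite) →
      ∃ g : ℕ → Ω → ℕ, ∀ F : Finset Ω,
        (∀ d ∈ F, ∀ e ∈ F, ∀ ξ ∈ C d, ξ ∈ C e → f d ξ = f e ξ) →
        ∃ n, ∀ d ∈ F, ∀ ξ ∈ C d, g n ξ = f d ξ) :=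
  ⟨fun _ _ hP _ hE => sigmaLinked_iff H hP hE,
    fun _ _ hB hloc => bool_local H hB hloc,
    fun _ G₁ G₂ hV h1 h2 h3 => gplus H hV G₁ G₂ h1 h2 h3,
    fun _ G hV hG => cover H hV G hG,
    fun _ _ hT h1 h2 => special H hT h1 h2,
    fun _ _ G hc h => hm_coloring H hc G h,
    fun _ _ _ C f hc hC hfin => ladders H hc C hC hfin f⟩

end Pool.Agent.Results.MP_f5d7b7_lc.LocalToGlobal
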