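import Mathlib
import Pool.Agent.H4PP.Add

set_option autoImplicit false

/-!
# If every ccc poset has property K then the failure of localisation is measured by a P-point
-/

namespace Pool.Agent.Results.MP_f5d7b7_lc.LocalisationUltrafilter

open Pool.Agent.Helper8.KP (CCC PropertyK)
open Pool.Agent.H4PP

universe u

/-- Assume that every ccc poset has property K.

(1) If `c ≤ h` and `w n ≥ n² (∏_{l < n} h l)^(2 n²)` for all `n`, then any `ℵ₁` functions below `c` are localised by one
slalom of width `w`, or any `ℵ₁` functions below `h` are localised by one slalom of width `w n * c n ^ n`.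

(2) Under the same condition on `h` and `w`, any `ℵ₁` functions below `h` are localised by one slalom of width `w`, or
the sets `Z` on which this fails form an ultrafilter which is a P-point.

(3) For any `ℵ₁` functions `f i : ℕ → ℕ` (with no bound), any width `w` tending to infinity and any `g` there are
consecutive disjoint intervals `[a k, b k)` with `g (a k) ≤ b k` such that all the functions are captured by one
slalom of width `w` on the union of almost all the intervals, or the sets `E` of indices for which all the functions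
are captured by one slalom of width `w` on the intervals with index in `E` form the ideal dual to a P-point.

(4) If there is no P-point then any `ℵ₁` functions `f i : ℕ → ℕ` are localised by one slalom of any given width
tending to infinity. -/
theorem result (H : ∀ (P : Type) [PartialOrder P], CCC P → PropertyK P) :
    (∀ h c w : ℕ → ℕ, (∀ n, n ^ 2 * (∏ l ∈ Finset.range n, h l) ^ (2 * n ^ 2) ≤ w n) → (∀ n, c n ≤ h n) →
      Loc c w Set.univ ∨ Loc h (fun n => w n * c n ^ n) Set.univ) ∧
    (∀ h w : ℕ → ℕ, (∀ n, n ^ 2 * (∏ l ∈ Finset.range n, h l) ^ (2 * n ^ 2) ≤ w n) →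
      Loc h w Set.univ ∨ ∃ U : Ultrafilter ℕ, PPt U ∧ ∀ Z : Set ℕ, Z ∉ U ↔ Loc h w Z) ∧
    (∀ (ι : Type u), Cardinal.mk ι ≤ Cardinal.aleph 1 → ∀ (f : ι → ℕ → ℕ) (w : ℕ → ℕ),
      Filter.Tendsto w Filter.atTop Filter.atTop → ∀ g : ℕ → ℕ,
      ∃ a b : ℕ → ℕ, (∀ k, g (a k) ≤ b k ∧ a k < b k ∧ b k ≤ a (k + 1)) ∧
        (Cap f w {n | ∃ k, a k ≤ n ∧ n < b k} ∨
          ∃ U : Ultrafilter ℕ, PPt U ∧ ∀ E : Set ℕ, E ∉ U ↔ Cap f w {n | ∃ k ∈ E, a k ≤ n ∧ n < b k})) ∧
    ((∀ U : Ultrafilter ℕ, ¬ PPt U) → ∀ (ι : Type u), Cardinal.mk ι ≤ Cardinal.aleph 1 →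
      ∀ (f : ι → ℕ → ℕ) (w : ℕ → ℕ), Filter.Tendsto w Filter.atTop Filter.atTop → Cap f w Set.univ) := by
  refine ⟨fun h c w hg hch => growth H hg hch, fun h w hg => ultra H hg, fun ι hι f w hw g => ?_,
    fun hP ι hι f w hw => add_all H hP hι f w hw⟩
  obtain ⟨a, b, hab, h1⟩ := intervals H hι f w hw g
  refine ⟨a, b, hab, ?_⟩
  rcases h1 with h1 | h1
  · left
    refine h1.mono (fun _ => le_rfl) ?_
    rintro n ⟨k, hk⟩
    exact ⟨k, Set.mem_univ _, hk⟩
  · exact Or.inr h1

end Pool.Agent.Results.MP_f5d7b7_lc.LocalisationUltrafilter
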